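import Mathlib
import Pool.Agent.Q266.MrdB

set_option autoImplicit false

/-! # Additive MRD codes that contain no field spread set

For every finite field `F` of characteristic two with more than two elements there is an additive
MRD code of `3 × 3` matrices over `F` with minimum distance `2` that contains no code equivalent
to a field spread set. -/

namespace Pool.Agent.Results.MP_bf8bcd_co.NoFieldSpreadSet

open Module

/-- A set of matrices that is closed under addition. -/
def IsAdditive {F : Type} [Field F] {n : ℕ} (C : Set (Matrix (Fin n) (Fin n) F)) : Prop :=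
  ∀ X ∈ C, ∀ Y ∈ C, X + Y ∈ C

/-- `d` is the least rank distance between two distinct elements of `C`. -/
def HasMinDist {F : Type} [Field F] {n : ℕ} (C : Set (Matrix (Fin n) (Fin n) F)) (d : ℕ) : Prop :=
  IsLeast {r : ℕ | ∃ X ∈ C, ∃ Y ∈ C, X ≠ Y ∧ r = (X - Y).rank} d

/-- An MRD code with minimum distance `d`: the size is `q ^ (n (n - d + 1))`. -/
def IsMRD {F : Type} [Field F] {n : ℕ} (C : Set (Matrix (Fin n) (Fin n) F)) (d : ℕ) : Prop :=
  HasMinDist C d ∧ Nat.card C = Nat.card F ^ (n * (n - d + 1))

/-- The field spread set: the matrices of the multiplications of the extension field `K` of degree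
`n` in the basis `b`. -/
def fieldSpreadSet {F : Type} [Field F] {n : ℕ} {K : Type} [Field K] [Algebra F K]
    (b : Basis (Fin n) F K) : Set (Matrix (Fin n) (Fin n) F) :=
  Set.range fun a : K => Algebra.leftMulMatrix b a

/-- Equivalence of codes. -/
def Equivalent {F : Type} [Field F] {n : ℕ} (C C' : Set (Matrix (Fin n) (Fin n) F)) : Prop :=
  ∃ (A B : GL (Fin n) F) (τ : F ≃+* F),
    C' = (fun X : Matrix (Fin n) (Fin n) F => A.1 * X.map τ * B.1) '' C ∨
    C' = (fun X : Matrix (Fin n) (Fin n) F => A.1 * (X.map τ).transpose * B.1) '' C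

open Pool.Agent.Q266.Mrd

/-- **Main theorem.** For every finite field `F` of characteristic two with more than two elements
there is an additive MRD code `C` of `3 × 3` matrices over `F` with minimum distance `2` such that
(a) no subset of `C` is equivalent to a field spread set, and (b) every `F`-linear subspace of
dimension at least two that is contained in `C` contains a nonzero singular matrix. -/
theorem result : ∀ (F : Type) [Field F] [Finite F] [CharP F 2], 2 < Nat.card F →
    ∃ C : Set (Matrix (Fin 3) (Fin 3) F), IsAdditive C ∧ IsMRD C 2 ∧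
      (∀ (K : Type) [Field K] [Algebra F K] (b : Basis (Fin 3) F K)
        (C' : Set (Matrix (Fin 3) (Fin 3) F)), C' ⊆ C → ¬ Equivalent (fieldSpreadSet b) C') ∧
      (∀ V : Submodule F (Matrix (Fin 3) (Fin 3) F), (V : Set (Matrix (Fin 3) (Fin 3) F)) ⊆ C →
        2 ≤ finrank F V → ∃ M ∈ V, M ≠ 0 ∧ M.det = 0) := by
  intro F _ _ _ hq
  have : Fact (Nat.Prime 2) := ⟨Nat.prime_two⟩
  let L := FiniteField.Extension F 2 3
  have hfr : finrank F L = 3 := FiniteField.finrank_extension F 2 3
  have hcL : Nat.card L = Nat.card F ^ 3 := FiniteField.natCard_extension F 2 3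
  let s : L ≃ₐ[F] L := FiniteField.Extension.frob F 2 3
  have hord : orderOf s = 3 := by
    have := Fintype.ofFinite F
    have h := FiniteField.orderOf_frobeniusAlgEquivOfAlgebraic F L
    rw [hfr] at h
    convert h
    ext x
    rw [FiniteField.coe_frobeniusAlgEquivOfAlgebraic, ← Nat.card_eq_fintype_card]
    exact FiniteField.Extension.frob_apply F 2 3
  have hs3 : s ^ 3 = 1 := by
    have h := pow_orderOf_eq_one s
    rw [hord] at h
    exact h
  have h3 : ∀ x, s (s (s x)) = x := fun x => by
    have := AlgEquiv.congr_fun hs3 x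
    simpa [pow_succ] using this
  have hs1 : s ≠ 1 := by
    intro h
    rw [h, orderOf_one] at hord
    omega
  have hs2 : s ^ 2 ≠ 1 := by
    intro h
    have := orderOf_dvd_of_pow_eq_one h
    rw [hord] at this
    omega
  have h1 : ∃ x, s x ≠ x := by
    by_contra hcon
    push Not at hcon
    exact hs1 (AlgEquiv.ext hcon)
  have h2' : ∃ x, s (s x) ≠ x := by
    by_contra hcon
    push Not at hcon
    refine hs2 (AlgEquiv.ext fun x => ?_)
    rw [sq]
    exact hcon x
  have h2F : (2 : F) = 0 := CharTwo.two_eq_zero
  have h2 : (2 : L) = 0 := by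
    have := congrArg (algebraMap F L) h2F
    rwa [map_ofNat, map_zero] at this
  have hfix : Nat.card {x : L // s x = x} ≤ Nat.card F := by
    classical
    let P : Polynomial L := Polynomial.X ^ (Nat.card F) - Polynomial.X
    have hP : P.natDegree = Nat.card F :=
      FiniteField.X_pow_card_sub_X_natDegree_eq L (by omega)
    have hP0 : P ≠ 0 := FiniteField.X_pow_card_sub_X_ne_zero L (by omega)
    have hinj : Function.Injective (fun x : {x : L // s x = x} =>
        (⟨x.1, by
          rw [Multiset.mem_toFinset, Polynomial.mem_roots hP0, Polynomial.IsRoot.def]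
          simp only [P, Polynomial.eval_sub, Polynomial.eval_pow, Polynomial.eval_X]
          have := x.2
          rw [FiniteField.Extension.frob_apply] at this
          rw [this, sub_self]⟩ : {y : L // y ∈ P.roots.toFinset})) := by
      intro x y hxy
      exact Subtype.ext (congrArg (fun z : {y : L // y ∈ P.roots.toFinset} => z.1) hxy)
    have hle := Nat.card_le_card_of_injective _ hinj
    refine hle.trans ?_
    rw [Nat.card_eq_fintype_card, Fintype.card_coe, ← hP]
    exact (Multiset.toFinset_card_le _).trans (Polynomial.card_roots' P)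
  let b : Basis (Fin 3) F L := (finBasis F L).reindex (finCongr hfr)
  obtain ⟨c, hc0, hc1⟩ : ∃ c : F, c ≠ 0 ∧ c ≠ 1 := by
    by_contra hcon
    push Not at hcon
    have hle : Nat.card F ≤ 2 := by
      have hsurj : Function.Surjective (fun i : Fin 2 => if i = 0 then (0 : F) else 1) := by
        intro x
        by_cases hx : x = 0
        · exact ⟨0, by simp [hx]⟩
        · exact ⟨1, by simp [hcon x hx]⟩
      have := Nat.card_le_card_of_surjective _ hsurj
      simpa using this
    omega
  refine ⟨code s b, fun X hX Y hY => code_add h2 hX hY, ⟨⟨?_, ?_⟩, ?_⟩, ?_, ?_⟩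
  · -- distance two occurs
    have hne : cm s (1 : L) 1 ≠ 0 := by
      intro h0
      have h4 : cm s (1 : L) 1 = lp s 0 0 0 := by
        rw [h0]; ext x; simp [lp_apply]
      have h5 := (lp_inj h1 h2' h4).2.1
      exact one_ne_zero h5
    have hmem : LinearMap.toMatrix b b (cm s (1 : L) 1) ∈ code s b := ⟨1, 1, rfl⟩
    have hmem0 : (0 : Matrix (Fin 3) (Fin 3) F) ∈ code s b := by
      refine ⟨0, 0, ?_⟩
      have : cm s (0 : L) 0 = 0 := by
        ext x
        rw [cm, lp_apply, b00, uu]
        simp
      rw [this, map_zero]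
    have hM0 : LinearMap.toMatrix b b (cm s (1 : L) 1) ≠ 0 := by
      intro h0
      apply hne
      apply (LinearMap.toMatrix b b).injective
      rw [h0, map_zero]
    refine ⟨_, hmem, 0, hmem0, hM0, ?_⟩
    rw [sub_zero]
    have hu : uu s (1 : L) 1 = 0 := by
      rw [uu, map_one]
      linear_combination h2
    have hsing := singular_of_uu h3 h2 hu
    have ha : s (s (1 : L)) ≠ 0 := by simp
    exact le_antisymm (rank_ge_two h1 h2' h3 h2 hmem hM0) (rank_of_singular ha hsing)
  · rintro r ⟨X, hX, Y, hY, hXY, rfl⟩
    exact rank_ge_two h1 h2' h3 h2 (code_sub h2 hX hY) (sub_ne_zero.2 hXY)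
  · rw [card_code h1 h2', hcL, ← pow_mul]
  · -- no field spread set
    intro K _ _ bK C' hC' hEq
    have hcK : Nat.card K = Nat.card F ^ 3 := by
      have hfK : finrank F K = 3 := by rw [finrank_eq_card_basis bK]; rfl
      have : FiniteDimensional F K := Module.Finite.of_basis bK
      rw [Module.natCard_eq_pow_finrank (K := F), hfK]
    have hcard : Nat.card F < Nat.card K := by
      rw [hcK]
      calc Nat.card F = Nat.card F ^ 1 := (pow_one _).symm
        _ < Nat.card F ^ 3 := Nat.pow_lt_pow_right (by omega) (by omega)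
    have hdetK : ∀ a : K, a ≠ 0 → (Algebra.leftMulMatrix bK a).det ≠ 0 := by
      intro a ha h0
      have h5 : Algebra.leftMulMatrix bK a * Algebra.leftMulMatrix bK a⁻¹ = 1 := by
        rw [← map_mul, mul_inv_cancel₀ ha, map_one]
      have h6 := congrArg Matrix.det h5
      rw [Matrix.det_mul, h0, zero_mul, Matrix.det_one] at h6
      exact zero_ne_one h6
    -- a general argument for an additive parametrization
    have main : ∀ G : K →+ Matrix (Fin 3) (Fin 3) F, (∀ a, G a ∈ code s b) →
        (∀ a, a ≠ 0 → (G a).det ≠ 0) → (∀ a, ∃ a', c • G a = G a') → False := by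
      intro G hG hdet hsc
      have hinj : Function.Injective G := by
        rw [injective_iff_map_eq_zero]
        intro a ha
        by_contra hne
        apply hdet a hne
        rw [ha]
        exact Matrix.det_zero
      have hcX : Nat.card F < Nat.card G.range := by
        have e : K ≃ G.range := Equiv.ofBijective G.rangeRestrict
          ⟨fun x y h => hinj (congrArg Subtype.val h), G.rangeRestrict_surjective⟩
        rw [← Nat.card_congr e]
        exact hcard
      obtain ⟨M, hM, hM0, hMd⟩ := core (b := b) h1 h2' h3 h2 hfix G.range (by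
        rintro _ ⟨a, rfl⟩
        exact hG a) hc0 hc1 (by
        rintro _ ⟨a, rfl⟩
        obtain ⟨a', ha'⟩ := hsc a
        rw [ha']
        exact hG a') hcX
      obtain ⟨a, rfl⟩ := hM
      refine hdet a ?_ hMd
      rintro rfl
      exact hM0 (map_zero G)
    obtain ⟨A, B, τ, hAB⟩ := hEq
    have hA : A.1.det ≠ 0 := by
      have := (Matrix.isUnit_iff_isUnit_det _).1 A.isUnit
      exact this.ne_zero
    have hB : B.1.det ≠ 0 := by
      have := (Matrix.isUnit_iff_isUnit_det _).1 B.isUnit
      exact this.ne_zero
    have hτdet : ∀ a : K, a ≠ 0 → ((Algebra.leftMulMatrix bK a).map τ).det ≠ 0 := by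
      intro a ha h0
      have h5 : ((Algebra.leftMulMatrix bK a).map τ).det =
          τ (Algebra.leftMulMatrix bK a).det := by
        have := (RingHom.map_det (τ : F →+* F) (Algebra.leftMulMatrix bK a)).symm
        exact this
      rw [h5] at h0
      exact hdetK a ha (by simpa using h0)
    have hmapadd : ∀ a a' : K, (Algebra.leftMulMatrix bK (a + a')).map τ =
        (Algebra.leftMulMatrix bK a).map τ + (Algebra.leftMulMatrix bK a').map τ := by
      intro a a'
      rw [map_add]
      ext i j
      simp
    have hmapsmul : ∀ a : K, (Algebra.leftMulMatrix bK (τ.symm c • a)).map τ =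
        c • (Algebra.leftMulMatrix bK a).map τ := by
      intro a
      rw [map_smul]
      ext i j
      simp
    rcases hAB with h | h
    · let G : K →+ Matrix (Fin 3) (Fin 3) F := AddMonoidHom.mk'
        (fun a => A.1 * (Algebra.leftMulMatrix bK a).map τ * B.1) (by
          intro a a'
          show A.1 * (Algebra.leftMulMatrix bK (a + a')).map τ * B.1 = _
          rw [hmapadd, mul_add, add_mul])
      refine main G (fun a => hC' ?_) (fun a ha => ?_) (fun a => ⟨τ.symm c • a, ?_⟩)
      · rw [h]
        exact ⟨_, ⟨a, rfl⟩, rfl⟩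
      · show (A.1 * (Algebra.leftMulMatrix bK a).map τ * B.1).det ≠ 0
        rw [Matrix.det_mul, Matrix.det_mul]
        exact mul_ne_zero (mul_ne_zero hA (hτdet a ha)) hB
      · show c • (A.1 * (Algebra.leftMulMatrix bK a).map τ * B.1) =
          A.1 * (Algebra.leftMulMatrix bK (τ.symm c • a)).map τ * B.1
        rw [hmapsmul, Matrix.mul_smul, Matrix.smul_mul]
    · let G : K →+ Matrix (Fin 3) (Fin 3) F := AddMonoidHom.mk'
        (fun a => A.1 * ((Algebra.leftMulMatrix bK a).map τ).transpose * B.1) (by
          intro a a'
          show A.1 * ((Algebra.leftMulMatrix bK (a + a')).map τ).transpose * B.1 = _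
          rw [hmapadd, Matrix.transpose_add, mul_add, add_mul])
      refine main G (fun a => hC' ?_) (fun a ha => ?_) (fun a => ⟨τ.symm c • a, ?_⟩)
      · rw [h]
        exact ⟨_, ⟨a, rfl⟩, rfl⟩
      · show (A.1 * ((Algebra.leftMulMatrix bK a).map τ).transpose * B.1).det ≠ 0
        rw [Matrix.det_mul, Matrix.det_mul, Matrix.det_transpose]
        exact mul_ne_zero (mul_ne_zero hA (hτdet a ha)) hB
      · show c • (A.1 * ((Algebra.leftMulMatrix bK a).map τ).transpose * B.1) =
          A.1 * ((Algebra.leftMulMatrix bK (τ.symm c • a)).map τ).transpose * B.1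
        rw [hmapsmul, Matrix.transpose_smul, Matrix.mul_smul, Matrix.smul_mul]
  · -- linear subspaces
    intro V hV hdim
    have hcV : Nat.card F < Nat.card V.toAddSubgroup := by
      have h5 : Nat.card V = Nat.card F ^ finrank F V := Module.natCard_eq_pow_finrank
      have h6 : Nat.card V.toAddSubgroup = Nat.card V := rfl
      rw [h6, h5]
      calc Nat.card F = Nat.card F ^ 1 := (pow_one _).symm
        _ < Nat.card F ^ finrank F V := Nat.pow_lt_pow_right (by omega) (by omega)
    obtain ⟨M, hM, hM0, hMd⟩ := core (b := b) h1 h2' h3 h2 hfix V.toAddSubgroup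
      (fun M hM => hV hM) hc0 hc1 (fun M hM => hV (V.smul_mem c hM)) hcV
    exact ⟨M, hM, hM0, hMd⟩

end Pool.Agent.Results.MP_bf8bcd_co.NoFieldSpreadSet
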